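import Pool.Agent.Helper69.GU.Defs

set_option autoImplicit false

namespace Pool.Agent.Helper69.GU

open Polynomial
open Pool.Agent.Helper51.GT (Mat PMat fr Dat dg Zm Fil Cir flp Red gprod Zp Filp Circ tr4)

/-- all terms `X^s` have `4 s ≤ m` -/
def adju_U {K : Type} [Field K] (m : ℤ) (p : K[X]) : Prop :=
  ∀ s : ℕ, m < 4 * (s : ℤ) → p.coeff s = 0

theorem adju_mono {K : Type} [Field K] {m n : ℤ} {p : K[X]} (h : m ≤ n) (hp : adju_U m p) :
    adju_U n p := fun s hs => hp s (lt_of_le_of_lt h hs)

theorem adju_zero {K : Type} [Field K] (m : ℤ) : adju_U m (0 : K[X]) := fun s _ => by simp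

theorem adju_add {K : Type} [Field K] {m : ℤ} {p q : K[X]} (hp : adju_U m p) (hq : adju_U m q) :
    adju_U m (p + q) := fun s hs => by rw [coeff_add, hp s hs, hq s hs, add_zero]

theorem adju_sum {K : Type} [Field K] {ι : Type} {m : ℤ} (S : Finset ι) (f : ι → K[X])
    (h : ∀ i ∈ S, adju_U m (f i)) : adju_U m (∑ i ∈ S, f i) := by
  intro s hs
  rw [finsetSum_coeff]
  exact Finset.sum_eq_zero fun i hi => h i hi s hs

theorem adju_mul {K : Type} [Field K] {m n : ℤ} {p q : K[X]} (hp : adju_U m p) (hq : adju_U n q) :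
    adju_U (m + n) (p * q) := by
  intro s hs
  rw [coeff_mul]
  refine Finset.sum_eq_zero fun x hx => ?_
  have hx' := Finset.HasAntidiagonal.mem_antidiagonal.mp hx
  by_cases h1 : m < 4 * (x.1 : ℤ)
  · rw [hp _ h1, zero_mul]
  · rw [hq x.2 (by
      have : (s : ℤ) = x.1 + x.2 := by exact_mod_cast hx'.symm
      omega), mul_zero]

theorem adju_C {K : Type} [Field K] (a : K) : adju_U 0 (C a) := by
  intro s hs
  rw [coeff_C, if_neg]
  rintro rfl
  simp at hs

theorem adju_one {K : Type} [Field K] : adju_U 0 (1 : K[X]) := by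
  have := adju_C (1 : K)
  rwa [C_1] at this

theorem adju_X {K : Type} [Field K] : adju_U 4 (X : K[X]) := by
  intro s hs
  rw [coeff_X, if_neg]
  rintro rfl
  simp at hs

theorem adju_prod {K : Type} [Field K] {ι : Type} [DecidableEq ι] (S : Finset ι) (f : ι → K[X])
    (m : ι → ℤ) (h : ∀ i ∈ S, adju_U (m i) (f i)) : adju_U (∑ i ∈ S, m i) (∏ i ∈ S, f i) := by
  induction S using Finset.induction_on with
  | empty => simpa using adju_one
  | insert a S ha ih =>
    rw [Finset.sum_insert ha, Finset.prod_insert ha]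
    exact adju_mul (h a (Finset.mem_insert_self _ _))
      (ih fun i hi => h i (Finset.mem_insert_of_mem hi))

theorem adju_FilU {K : Type} [Field K] {d : ℕ} {M : Mat K} :
    FilU d M ↔ ∀ i j : Fin 4, adju_U ((d : ℤ) + ((i : ℕ) : ℤ) - ((j : ℕ) : ℤ)) (M i j) := by
  constructor
  · intro h i j s hs
    exact h i j s (by omega)
  · intro h i j s hs
    exact h i j s (by omega)

theorem adju_fmul {K : Type} [Field K] {d e : ℕ} {M N : Mat K} (hM : FilU d M) (hN : FilU e N) :
    FilU (d + e) (M * N) := by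
  rw [adju_FilU] at *
  intro i j
  rw [Matrix.mul_apply]
  refine adju_sum _ _ fun k _ => ?_
  refine adju_mono ?_ (adju_mul (hM i k) (hN k j))
  push_cast
  linarith

theorem adju_fadd {K : Type} [Field K] {d : ℕ} {M N : Mat K} (hM : FilU d M) (hN : FilU d N) :
    FilU d (M + N) := by
  rw [adju_FilU] at *
  intro i j
  rw [Matrix.add_apply]
  exact adju_add (hM i j) (hN i j)

theorem adju_fmono {K : Type} [Field K] {d e : ℕ} {M : Mat K} (h : d ≤ e) (hM : FilU d M) :
    FilU e M := fun i j s hs => hM i j s (by omega)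

theorem adju_dg {K : Type} [Field K] (φ : K ≃+* K) (a : K) : FilU 0 (dg φ a) := by
  rw [adju_FilU]
  intro i j
  unfold dg
  by_cases h : i = j
  · subst h
    rw [Matrix.diagonal_apply_eq]
    refine adju_mono ?_ (adju_C _)
    simp
  · rw [Matrix.diagonal_apply_ne _ h]
    exact adju_zero _

theorem adju_Zm {K : Type} [Field K] : FilU 1 (Zm : Mat K) := by
  rw [adju_FilU]
  intro i j
  fin_cases i <;> fin_cases j <;> simp only [Zm] <;>
    first
    | exact adju_zero _
    | exact adju_mono (by norm_num) adju_one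
    | exact adju_mono (by norm_num) adju_X

theorem adju_th {K : Type} [Field K] (φ : K ≃+* K) (ρ : K) (p : K × K) : FilU 2 (th φ ρ p) := by
  unfold th
  refine adju_fadd (adju_fadd (adju_fmono (by norm_num) (adju_dg φ _)) ?_) ?_
  · exact adju_fmono (by norm_num) (adju_fmul (adju_dg φ _) adju_Zm)
  · exact adju_fmono (by norm_num) (adju_fmul (adju_dg φ _) (adju_fmul adju_Zm adju_Zm))

theorem adju_adj {K : Type} [Field K] {M : Mat K} (hM : FilU 2 M) : FilU 6 M.adjugate := by
  rw [adju_FilU] at *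
  intro i j
  rw [Matrix.adjugate_apply, Matrix.det_apply]
  refine adju_sum _ _ fun σ _ => ?_
  have key : adju_U ((6 : ℕ) + ((i : ℕ) : ℤ) - ((j : ℕ) : ℤ))
      (∏ r : Fin 4, (M.updateRow j (Pi.single i 1)) (σ r) r) := by
    by_cases hσ : σ i = j
    · have hP : ∀ r ∈ (Finset.univ : Finset (Fin 4)),
          adju_U (if r = i then (0 : ℤ) else 2 + ((σ r : ℕ) : ℤ) - ((r : ℕ) : ℤ))
            ((M.updateRow j (Pi.single i 1)) (σ r) r) := by
        intro r _
        by_cases hr : r = i
        · rw [if_pos hr, hr, hσ, Matrix.updateRow_self, Pi.single_eq_same]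
          exact adju_one
        · have hne : σ r ≠ j := fun h => hr (σ.injective (h.trans hσ.symm))
          rw [if_neg hr, Matrix.updateRow_ne hne]
          have := hM (σ r) r
          push_cast at this
          exact this
      have key := adju_prod _ _ _ hP
      refine adju_mono ?_ key
      have e1 : ∑ r : Fin 4, (2 + ((σ r : ℕ) : ℤ) - ((r : ℕ) : ℤ)) = 8 := by
        rw [Finset.sum_sub_distrib, Finset.sum_add_distrib,
          Equiv.sum_comp σ (fun r : Fin 4 => ((r : ℕ) : ℤ)), add_sub_cancel_right]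
        simp
      have e2 : ∑ r : Fin 4, (if r = i then (0 : ℤ) else 2 + ((σ r : ℕ) : ℤ) - ((r : ℕ) : ℤ))
          = ∑ r : Fin 4, (2 + ((σ r : ℕ) : ℤ) - ((r : ℕ) : ℤ))
            - ∑ r : Fin 4, (if r = i then (2 + ((j : ℕ) : ℤ) - ((i : ℕ) : ℤ)) else 0) := by
        rw [← Finset.sum_sub_distrib]
        refine Finset.sum_congr rfl fun r _ => ?_
        by_cases hr : r = i
        · rw [if_pos hr, if_pos hr, hr, hσ]; ring
        · rw [if_neg hr, if_neg hr]; ring
      rw [e2, e1, Finset.sum_ite_eq' Finset.univ i, if_pos (Finset.mem_univ _)]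
      push_cast
      linarith
    · have hz : ∏ r : Fin 4, (M.updateRow j (Pi.single i 1)) (σ r) r = 0 := by
        refine Finset.prod_eq_zero (Finset.mem_univ (σ.symm j)) ?_
        have hne : σ.symm j ≠ i := fun h => hσ (by rw [← h, Equiv.apply_symm_apply])
        rw [Equiv.apply_symm_apply, Matrix.updateRow_self, Pi.single_eq_of_ne hne]
      rw [hz]
      exact adju_zero _
  intro s hs
  rw [Units.smul_def, coeff_smul, key s hs, smul_zero]

theorem st_ADJU : ST_ADJU := fun _ _ φ ρ p => ⟨adju_th φ ρ p, adju_adj (adju_th φ ρ p)⟩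

end Pool.Agent.Helper69.GU
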